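import Pool.Agent.Q193.LT.Cyc

/-!
# Tate-Shafarevich groups over function fields and trilinear forms with a block of four variables

Let `p` and `ℓ ≠ p` be prime numbers. For a smooth projective scheme `Y` over `𝔽_p` let `A^n(Y)` be the
`ℚ_ℓ`-subspace of `H^{2n}(Ȳ, ℚ_ℓ(n))` generated by the classes of algebraic cycles on `Y`, and `B^n(Y)` the
space of the invariants of the Galois group of `𝔽_p` in `H^{2n}(Ȳ, ℚ_ℓ(n))`. Both are functors of Chow
motives over `𝔽_p`. For a separated scheme `X` of finite type over `𝔽_p` let `W(X)` be its weight complex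
(Gillet, Soulé; Bondarko), with `W(X) = h(X)` for smooth projective `X`, and `A^{n,i}(X) = H^i(A^n(W(X)))`,
`B^{n,i}(X) = H^i(B^n(W(X)))` for `n, i ∈ ℤ`. The inclusion gives maps `A^{n,i}(X) → B^{n,i}(X)`;
`BijAll C X` says that they are isomorphisms for all `n` and `i`. For a smooth projective surface `Y` it
is the Tate conjecture for divisors on `Y` (the cases `n = 0, 2` are trivial).

Let `𝒜` be the class of the triples `x = (K, A, L)` of a global function field `K` of characteristic `p`,
an abelian variety `A` over `K` and a finite Galois extension `L` of `K`, and let `Sha x` be the statement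
that the Tate-Shafarevich group of `A` over `L` is finite. It is known (Artin, Tate, Milne, Kato, Trihan;
Liu, Lorenzini, Raynaud) that `Sha x` follows from the Tate conjecture for some surface `Y` over `𝔽_p`
(fibred in curves whose Jacobian has `A_L` as a quotient), and that the Tate conjecture for a surface
follows from `Sha x` for some `x` (hypotheses `toSurface`, `ofSurface`).

**Theorem.** (1) The Tate-Shafarevich groups of all abelian varieties over all global function fields of
characteristic `p` are finite (question Q1 in characteristic `p`) if and only if the maps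
`A^{n,i}(Z) → B^{n,i}(Z)` are isomorphisms for the smooth affine cubic hypersurfaces
`Z : T(x, y, z) = 1` of all trilinear forms `T` over `𝔽_p` such that one of the three blocks of variables
has at most four variables (the other two blocks are arbitrary).

(2) Unconditionally, the maps are isomorphisms for the hypersurfaces `T(x, y, z) = 1` such that one of the
three blocks of variables has at most three variables.
-/

set_option autoImplicit false

open CategoryTheory CategoryTheory.Limits AlgebraicGeometry Pool.Agent.Y116.UV Pool.Agent.Z125.UN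
  Pool.Agent.Q193.LT

universe w u

namespace Pool.Agent.Results.MP_72e2e6_nt.FourVariables

variable {p : ℕ} [Fact p.Prime] {ℓ : ℕ} [Fact ℓ.Prime]

/-- The maps are isomorphisms for all smooth projective schemes of dimension at most `n`. -/
def Proj (C : PairData.{w} (ZMod p) (ℤ × ℤ) ℚ_[ℓ]) (n : ℕ) : Prop :=
  ∀ Y : Sch (ZMod p), SmoothProj Y → topologicalKrullDim Y.left ≤ n → BijAll C Y

/-- The maps are isomorphisms for all hypersurfaces `T = 1` with a block of at most `m` variables. -/
def Forms (C : PairData.{w} (ZMod p) (ℤ × ℤ) ℚ_[ℓ]) (m : ℕ) : Prop :=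
  ∀ (a b c : ℕ) (T : Fin a → Fin b → Fin c → ZMod p), (a ≤ m ∨ b ≤ m ∨ c ≤ m) → BijAll C (hypS T)

/-- **Tate-Shafarevich groups over function fields and cubic hypersurfaces.** See the explanations
above. -/
theorem result (_hℓ : ℓ ≠ p) {C : PairData.{w} (ZMod p) (ℤ × ℤ) ℚ_[ℓ]} (hC : IsWeightPair C)
    (hg : WeightGen C) (point : BijAll C (aff (ZMod p) (ZMod p)))
    {𝒜 : Type u} {Sha : 𝒜 → Prop}
    (toSurface : ∀ x, ∃ Y : Sch (ZMod p), SmoothProj Y ∧ topologicalKrullDim Y.left ≤ (2 : ℕ) ∧
      (BijAll C Y → Sha x))
    (ofSurface : ∀ Y : Sch (ZMod p), SmoothProj Y → topologicalKrullDim Y.left ≤ (2 : ℕ) →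
      ∃ x, Sha x → BijAll C Y) :
    ((∀ x, Sha x) ↔ Forms C 4) ∧ (Proj C 1 → Forms C 3) := by
  refine ⟨Iff.trans ⟨fun h Y hY hn => ?_, fun h x => ?_⟩ (wg_dim hg hC point 2),
    (wg_dim hg hC point 1).mp⟩
  · obtain ⟨x, hx⟩ := ofSurface Y hY hn
    exact hx (h x)
  · obtain ⟨Y, hY, hn, hx⟩ := toSurface x
    exact hx (h Y hY hn)

end Pool.Agent.Results.MP_72e2e6_nt.FourVariables
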