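import Pool.Agent.Q126.NV.Three

set_option autoImplicit false
set_option linter.all false

/-!
# Elliptic curves with a point of order three over `K = F(t)` and their Tate-Shafarevich groups over
# the Galois extensions `L = F'(t ^ (1 / M))`

Let `k` be a finite field of characteristic at least `5` with `q` elements. Every elliptic curve over
`k(t)` with a rational point of order three has an equation `y ^ 2 = x ^ 3 + (α x + β) ^ 2` with
polynomials `α`, `β`, with `β` and `γ = 4 α ^ 3 - 27 β` not zero.

Theorem.

(1) If the `L`-function of `y ^ 2 = x ^ 3 + (α x + β) ^ 2` over `k(t)` is `(1 - q T) ^ n G(T)` with `G` in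
`ℤ[T]`, then `n + 4 ≤ finB + infB` if `q` is `1` modulo `3`, and `n + 2 ≤ finB + infB` otherwise. Here
`finB` is the sum, over the monic irreducible factors `P` of `β`, of `3 ^ v₃(deg P)`, doubled if `P`
divides `α` and `3` divides `q ^ deg P - 1`, and, over the monic irreducible factors `P` of `γ` prime
to `β` such that `3` divides `q ^ deg P - 1`, of `3 ^ v₃(deg P)`; and `infB ≤ 2` is the contribution of
the place at infinity.

(2) Let `m` be prime to `3`, `3 r < m`, `R` odd and prime to `3`, and let `F` be a finite field of
characteristic at least `5` with at least `4 R m + 2` elements which contains the roots of unity of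
order `R`; let `|F|` be `1` modulo `3`, or `m` odd. For `v` in `F ^ (m + r + 2)` let `G` be monic of
degree `m` with the coefficients `v_0, ..., v_(m - 1)`, `B` of degree at most `r` with the coefficients
`v_m, ..., v_(m + r)`, `c = v_(m + r + 1)`, and let `E_v` be the curve over `K = F(t)`

  `y ^ 2 = x ^ 3 + (c B x - (4 c ^ 3 / 27) G) ^ 2`,   with `γ = 4 c ^ 3 (G + B ^ 3)`.

For at least the proportion `1 / (16 (R m) ^ 2)` of all `v`, the following holds for ALL finite
extensions `F'` of `F` of degree prime to `R m` and ALL divisors `M` of powers of `R`: over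
`F'(t)`, the pull-back of `E_v` by `t ↦ t ^ M` has a nonconstant `j`-invariant, its `L`-function does
not vanish at the central point `T = 1 / |F'|`, and the rank is zero if it is at most the order of
vanishing (Tate).

The pull-back over `F'(t)` is the curve `E_v` over the field `L = F'(t ^ (1 / M))`, which is a Galois
extension of `K = F(t)` when `F'` contains the roots of unity of order `M` (for example for all
`M` dividing `R`). By the theorems of Tate, Milne, Kato and Trihan (not formalised) the group
`Sha(E_v / L)` is finite: so for a positive proportion of the elliptic curves of this form (all the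
coefficients of `G` and `B` are free) the answer to the question is yes over all these extensions
`L / K` at the same time, of unbounded degree and with `L`-functions of unbounded degree.
-/

namespace Pool.Agent.Results.MP_72e2e6_nt.GaloisLayersThreeTorsion

open Polynomial Pool.Agent.W343.BSD Pool.Agent.TH639.B3 Pool.Agent.Q126.NV.Three

theorem result :
    (∀ (k : Type) [Field k] [Finite k], (6 : k) ≠ 0 → ∀ α β : k[X], β ≠ 0 →
      4 * α ^ 3 - 27 * β ≠ 0 → ∀ n : ℕ, S.VanishesTo k (cA α β) (cB α β) n →
        n + (if 3 ∣ Nat.card k - 1 then 4 else 2) ≤ finB α β + infB α β) ∧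
    ∀ m r R : ℕ, ¬ 3 ∣ m → 3 * r < m → Odd R → ¬ 3 ∣ R → ∀ (F : Type) [Field F] [Finite F],
      (6 : F) ≠ 0 → (3 ∣ Nat.card F - 1 ∨ Odd m) → R ∣ Nat.card F - 1 →
        4 * (R * m) + 2 ≤ Nat.card F →
          Nat.card F ^ (m + (r + 2)) ≤ 16 * (R * m) ^ 2 *
            {v : Fin (m + (r + 2)) → F | ∀ (F' : Type) [Field F'] [Algebra F F']
              [FiniteDimensional F F'], (R * m).Coprime (Module.finrank F F') →
                ∀ M e : ℕ, M ∣ R ^ e →
                  Central F' ((aPoly m r (fun i => algebraMap F F' (v i))).comp (X ^ M))
                    ((bPoly m r (fun i => algebraMap F F' (v i))).comp (X ^ M))}.ncard :=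
  ⟨fun k _ _ h6 α β hβ hγ n hn => bound_fam h6 hβ hγ hn,
    fun m r R hm hr hR hR3 F _ _ h6 hq hRF hn => proportion hm hr hR hR3 F h6 hq hRF hn⟩

end Pool.Agent.Results.MP_72e2e6_nt.GaloisLayersThreeTorsion
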