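import Pool.Agent.Q126.PP.Inert
import Pool.Agent.Q126.PP.Prod

/-!
# Tate-Shafarevich groups of the twists of `y² = g(x) + t` by products of inert primes, over all the
# extensions of degree prime to three and all the layers of towers of quadratic coverings

Let `𝔽` be ANY finite field of characteristic at least 5, `g = x³ + b₂ x² + b₁ x + b₀` ANY cubic
polynomial over `𝔽` with `b₂² ≠ 3 b₁`, and `ε > 0`.

Theorem. There is `c > 0` such that for all large `m` at least the proportion `c m ^ (-2/3 - ε)` of ALL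
the polynomials `D` of degree at most `m` over `𝔽` have degree `m`, no zeros in `𝔽`, and the property:
for ALL finite extensions `𝔽'` of `𝔽` of degree prime to 3, all `d ≠ 0` in `𝔽'`, and all composites
`h` of quadratic polynomials `a t² + c` over `𝔽'` such that `D(γ) ≠ 0` and `g + γ` is irreducible over
`𝔽'` for every critical value `γ` of `h` (no condition for `h = t`), every element of the Selmer group
`Sel(E, ℤ₂)` of

`E : d D(h(t)) y² = g(x) + h(t)` over `K = 𝔽'(t)`

comes, at every level `2^n`, from a point of `E(K)`. So `T₂ Ш(E/K) = 0`, the 2-primary part of `Ш(E/K)`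
is finite, and by Tate, Milne, Kato and Trihan `Ш(E/K)` is finite.

If `g` is irreducible over `𝔽`, then `h = t^(2^e)` is allowed for all `e` and all `𝔽'` of degree prime
to 3, so `Ш` is finite for ONE curve `E_D` over `𝔽(t)` and all the extensions `𝔽'(t^(1/2^e))`, which
are Galois over `𝔽(t)` if `𝔽'` contains the `2^e`-th roots of unity (this is so for the extensions
of `𝔽` of degree a sufficiently large power of 2).

The proof. The `D` are the products of different primes `P` of large degree for which `P(-g(x))` is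
irreducible (a third of all primes); their number is estimated from below by double counting of pairs
`(D, P)`, `P ∣ D`. Over `𝔽'` the primes of `D(h(t))` still have no place of degree one above them in the
cubic extension, since the degree of a zero of `D` over `𝔽'` divides its degree over `𝔽`.
-/

set_option autoImplicit false

namespace Pool.Agent.Results.MP_72e2e6_nt.ProductsOfInertPrimes

open Polynomial Module
open Pool.Agent.TH115.GD (cb cb_deg cq crit twC)
open Pool.Agent.Q126.SB (SelmerAtTwo)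

/-- The composite `h` of the quadratic polynomials `a t² + c`, `(a, c)` in the list `l`, is allowed for
`g` and `D`: all `a ≠ 0`, and for each critical value `γ` of `h`: `D(γ) ≠ 0` and `g + γ` is
irreducible. -/
def Admissible {k : Type} [Field k] (g D : k[X]) (l : List (k × k)) : Prop :=
  (∀ p ∈ l, p.1 ≠ 0) ∧ ∀ γ ∈ crit l, D.eval γ ≠ 0 ∧ Irreducible (g + C γ)

/-- The polynomials `D` of degree `m` without zeros in `𝔽` such that for all finite extensions `𝔽'` of
`𝔽` of degree prime to `3`, all `d ≠ 0` in `𝔽'` and all admissible composites `h` over `𝔽'`, the Selmer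
group conjecture at 2 holds for the curve `d D(h(t)) y² = g(x) + h(t)` over `𝔽'(t)`. -/
def Good (𝔽 : Type) [Field 𝔽] (b₂ b₁ b₀ : 𝔽) (m : ℕ) : Set 𝔽[X] :=
  {D | D.natDegree = m ∧ (∀ x, D.eval x ≠ 0) ∧
    ∀ (𝔽' K : Type) [Field 𝔽'] [Algebra 𝔽 𝔽'] [FiniteDimensional 𝔽 𝔽']
    [Field K] [Algebra 𝔽'[X] K] [IsFractionRing 𝔽'[X] K], ¬ 3 ∣ finrank 𝔽 𝔽' →
      ∀ (φ : 𝔽 →+* 𝔽'), φ = algebraMap 𝔽 𝔽' → ∀ d : 𝔽', d ≠ 0 → ∀ l : List (𝔽' × 𝔽'),
        Admissible (cb (φ b₂) (φ b₁) (φ b₀)) (D.map φ) l →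
          SelmerAtTwo 𝔽' (twC K (φ b₂) (φ b₁) (φ b₀) (cq l) (C d * (D.map φ).comp (cq l)))}

/-- **The Selmer group conjecture at 2, over all the extensions of degree prime to three and for all the
admissible pull-backs, for at least `c m ^ (-2/3 - ε)` of the twists of degree `m` of `y² = g(x) + t`
over every finite field of characteristic at least 5.** -/
theorem result (𝔽 : Type) [Field 𝔽] [Finite 𝔽] (h2 : (2 : 𝔽) ≠ 0) (h3 : (3 : 𝔽) ≠ 0)
    (b₂ b₁ b₀ : 𝔽) (hg : b₂ ^ 2 ≠ 3 * b₁) (ε : ℝ) (hε : 0 < ε) :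
    ∃ c : ℝ, 0 < c ∧ ∃ m₀ : ℕ, ∀ m, m₀ ≤ m →
      c * (m : ℝ) ^ (-(2 / 3 : ℝ) - ε) * ({D : 𝔽[X] | D.natDegree ≤ m}.ncard : ℝ) ≤
        ((Good 𝔽 b₂ b₁ b₀ m).ncard : ℝ) := by
  classical
  haveI : Fintype 𝔽 := Fintype.ofFinite 𝔽
  set g : 𝔽[X] := cb b₂ b₁ b₀ with hgdef
  obtain ⟨gd, gm⟩ := cb_deg b₂ b₁ b₀
  have c2 : g.coeff 2 = b₂ := by
    rw [hgdef]
    unfold cb
    simp only [coeff_add, coeff_C_mul, coeff_X_pow, coeff_X, coeff_C]
    norm_num
  have c1 : g.coeff 1 = b₁ := by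
    rw [hgdef]
    unfold cb
    simp only [coeff_add, coeff_C_mul, coeff_X_pow, coeff_X, coeff_C]
    norm_num
  -- the number of all polynomials
  have hall : ∀ m : ℕ, ({D : 𝔽[X] | D.natDegree ≤ m}.ncard : ℝ) = (Nat.card 𝔽 : ℝ) ^ (m + 1) := by
    intro m
    have h1 := Pool.Agent.Q126.TD.ncard_pol (R := 𝔽) (n := m) fun _ => True
    have h4 : {f : 𝔽[X] | f.natDegree ≤ m ∧ True} = {D : 𝔽[X] | D.natDegree ≤ m} := by
      ext f; simp
    rw [h4] at h1
    rw [← h1]
    have h5 : {v : Fin (m + 1) → 𝔽 | True} = Set.univ := by ext v; simp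
    rw [h5, Set.ncard_univ, Nat.card_fun, Nat.card_eq_fintype_card (α := Fin (m + 1)),
      Fintype.card_fin]
    push_cast
    rfl
  -- the exponent
  obtain ⟨θ, hθ0, hθ1, hθε⟩ : ∃ θ : ℝ, 0 < θ ∧ θ < 1 / 3 ∧ -(2 / 3 : ℝ) - ε ≤ θ - 1 := by
    refine ⟨max (1 / 3 - ε) (1 / 6), by positivity, ?_, ?_⟩
    · rw [max_lt_iff]
      constructor <;> linarith
    · have := le_max_left (1 / 3 - ε) (1 / 6 : ℝ)
      linarith
  obtain ⟨c, hc, m₀, hcount⟩ := Pool.Agent.Q126.PP.count_inert h2 h3 (g := g) gm gd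
    (by rw [c2, c1]; exact hg) 2 hθ0 hθ1
  have hq0 : (0 : ℝ) < Nat.card 𝔽 := by
    have : 0 < Nat.card 𝔽 := Nat.card_pos
    exact_mod_cast this
  refine ⟨c / Nat.card 𝔽, by positivity, m₀ + 1, ?_⟩
  intro m hm
  have hm1 : (1 : ℝ) ≤ m := by
    have : 1 ≤ m := by omega
    exact_mod_cast this
  rw [hall m]
  have hfin : (Good 𝔽 b₂ b₁ b₀ m).Finite :=
    (Pool.Agent.Q126.PP.finite_le' m).subset fun f hf => hf.1.le
  have hsub : {D : 𝔽[X] | D.natDegree = m ∧ Pool.Agent.Q126.PP.AllInert g 2 D} ⊆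
      Good 𝔽 b₂ b₁ b₀ m := by
    rintro D ⟨f1, f2, f3⟩
    refine ⟨f1, ?_, ?_⟩
    · intro x hx
      have h4 := f3 (X - C x) (irreducible_X_sub_C x) (dvd_iff_isRoot.2 hx)
      rw [natDegree_X_sub_C] at h4
      omega
    · intro 𝔽' K _ _ _ _ _ _ hco φ hφ d hd0 l ⟨hl, hcrit⟩
      subst hφ
      exact Pool.Agent.Q126.PP.selmer_inert
        (by have := (_root_.map_ne_zero (algebraMap 𝔽 𝔽')).2 h2; rwa [map_ofNat] at this)
        (by have := (_root_.map_ne_zero (algebraMap 𝔽 𝔽')).2 h3; rwa [map_ofNat] at this)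
        f2 (fun P hP hPD => (f3 P hP hPD).2) hco hd0 hl (fun γ hγ => (hcrit γ hγ).1)
        fun γ hγ => (hcrit γ hγ).2
  have hle := Set.ncard_le_ncard hsub hfin
  refine le_trans ?_ ((hcount m (by omega)).trans (by exact_mod_cast hle))
  have h4 : (m : ℝ) ^ (-(2 / 3 : ℝ) - ε) ≤ (m : ℝ) ^ (θ - 1) :=
    Real.rpow_le_rpow_of_exponent_le hm1 hθε
  have e : c / (Nat.card 𝔽 : ℝ) * (m : ℝ) ^ (-(2 / 3 : ℝ) - ε) * (Nat.card 𝔽 : ℝ) ^ (m + 1) =
      c * (m : ℝ) ^ (-(2 / 3 : ℝ) - ε) * (Nat.card 𝔽 : ℝ) ^ m := by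
    rw [pow_succ]
    field_simp
  rw [e]
  exact mul_le_mul_of_nonneg_right (mul_le_mul_of_nonneg_left h4 hc.le) (by positivity)

end Pool.Agent.Results.MP_72e2e6_nt.ProductsOfInertPrimes
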